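import Mathlib

set_option autoImplicit false

namespace Pool.Agent.X35.TSP

open Polynomial

variable {K : Type*} [Field K]

/-- homogeneous substitution -/
noncomputable def hmg (a b c e : K) (n : ℕ) (F : K[X]) : K[X] :=
  ∑ i ∈ Finset.range (n + 1), C (F.coeff i) * (C a * X + C b) ^ i * (C c * X + C e) ^ (n - i)

theorem hmg_eval {a b c e : K} {n : ℕ} {F : K[X]} (hF : F.natDegree ≤ n) {x : K}
    (hx : c * x + e ≠ 0) :
    (hmg a b c e n F).eval x = (c * x + e) ^ n * F.eval ((a * x + b) / (c * x + e)) := by
  unfold hmg
  rw [eval_finsetSum, eval_eq_sum_range' (Nat.lt_succ_of_le hF), Finset.mul_sum]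
  refine Finset.sum_congr rfl fun i hi => ?_
  have hi' : i ≤ n := Nat.lt_succ_iff.1 (Finset.mem_range.1 hi)
  simp only [eval_mul, eval_pow, eval_add, eval_C, eval_X]
  obtain ⟨j, rfl⟩ := Nat.exists_eq_add_of_le hi'
  rw [Nat.add_sub_cancel_left, div_pow, pow_add]
  generalize c * x + e = y at hx
  have hy : y ^ i ≠ 0 := pow_ne_zero _ hx
  field_simp

theorem hmg_zero {a b c e : K} {n : ℕ} {F : K[X]} {x : K} (hx : c * x + e = 0) :
    (hmg a b c e n F).eval x = F.coeff n * (a * x + b) ^ n := by
  unfold hmg
  rw [eval_finsetSum, Finset.sum_range_succ, Finset.sum_eq_zero, zero_add]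
  · simp
  · intro i hi
    have hi' : i < n := Finset.mem_range.1 hi
    simp only [eval_mul, eval_pow, eval_add, eval_C, eval_X]
    rw [hx, zero_pow (by omega), mul_zero]

theorem eq_of_eval [Infinite K] {p q : K[X]} {c e : K} (hce : c ≠ 0 ∨ e ≠ 0)
    (h : ∀ x, c * x + e ≠ 0 → p.eval x = q.eval x) : p = q := by
  classical
  apply eq_of_infinite_eval_eq
  have hfin : {x : K | c * x + e = 0}.Finite := by
    have hne : (C c * X + C e : K[X]) ≠ 0 := by
      intro h0
      rcases hce with h1 | h1
      · apply h1
        have := congrArg (fun p : K[X] => p.coeff 1) h0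
        simpa using this
      · apply h1
        have := congrArg (fun p : K[X] => p.coeff 0) h0
        simpa using this
    refine (Multiset.toFinset (C c * X + C e : K[X]).roots).finite_toSet.subset fun x hx => ?_
    rw [Finset.mem_coe, Multiset.mem_toFinset, mem_roots hne]
    show (C c * X + C e : K[X]).eval x = 0
    simpa using hx
  refine (hfin.infinite_compl).mono fun x hx => h x hx

/-- derivative of `(A - r B) G` at a zero of the first factor -/
theorem deriv_fac {a b c e r x : K} {G : K[X]} (hx : (a - r * c) * x + (b - r * e) = 0) :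
    (derivative ((C a * X + C b - C r * (C c * X + C e)) * G)).eval x = (a - r * c) * G.eval x := by
  simp only [derivative_mul, derivative_add, derivative_sub, derivative_C, derivative_X, eval_add,
    eval_mul, eval_sub, eval_C, eval_X, derivative_C_mul, zero_mul, mul_one, eval_one, add_zero]
  have : (a * x + b - r * (c * x + e)) = 0 := by linear_combination hx
  simp only [map_zero, zero_mul, mul_zero, eval_zero, add_zero, this]
  try ring

/-- the multiplier of a fixed point -/
theorem mult_eq {P R : K[X]} {x : K} (hx : (P - X * R).eval x = 0) (hR : R.eval x ≠ 0) :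
    (derivative P * R - P * derivative R).eval x / R.eval x ^ 2 =
      1 + (derivative (P - X * R)).eval x / R.eval x := by
  have h1 : P.eval x = x * R.eval x := by
    have := hx
    rw [eval_sub, eval_mul, eval_X] at this
    linear_combination this
  simp only [derivative_sub, derivative_mul, derivative_X, eval_sub, eval_mul, eval_add, eval_X,
    one_mul, h1]
  field_simp
  ring

/-- the main computation -/
theorem spec_conj [IsAlgClosed K] [CharZero K] {D : ℕ} (hD : 2 ≤ D) {P R u w : K[X]} (hPR : IsCoprime P R)
    (hf : (P - X * R).natDegree = D + 1) (huw : IsCoprime u w)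
    (hu : u.Monic) (hud : u.natDegree = D) (hwd : w.natDegree < D)
    (hFd : (u - X * w).natDegree = D) {a b c e s : K} (hδ : a * e - b * c ≠ 0) (hs : s ≠ 0)
    (hU : hmg a b c e D u = C s * (C a * P + C b * R))
    (hW : hmg a b c e D w = C s * (C c * P + C e * R)) :
    (P - X * R).roots.map (fun x => (derivative P * R - P * derivative R).eval x / R.eval x ^ 2) =
      w.coeff (D - 1) ::ₘ (u - X * w).roots.map
        (fun x => (derivative u * w - u * derivative w).eval x / w.eval x ^ 2) := by
  classical
  have : Infinite K := IsAlgClosed.instInfinite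
  have hce : c ≠ 0 ∨ e ≠ 0 := by
    by_contra hcon
    push Not at hcon
    apply hδ
    rw [hcon.1, hcon.2]
    ring
  obtain ⟨f, hfe⟩ : ∃ f, f = P - X * R := ⟨_, rfl⟩
  obtain ⟨F, hFe⟩ : ∃ F, F = u - X * w := ⟨_, rfl⟩
  rw [← hfe] at hf ⊢
  rw [← hFe] at hFd ⊢
  obtain ⟨δ, hδe⟩ : ∃ δ, δ = a * e - b * c := ⟨_, rfl⟩
  rw [← hδe] at hδ
  have hF0 : F ≠ 0 := by
    rintro rfl
    rw [natDegree_zero] at hFd
    omega
  have hf0 : f ≠ 0 := by
    rintro rfl
    rw [natDegree_zero] at hf
    omega
  have hsδ : s * δ ≠ 0 := mul_ne_zero hs hδ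
  -- the basic identity at the points with `c x + e ≠ 0`
  have hid : ∀ x, c * x + e ≠ 0 →
      s * δ * f.eval x = (c * x + e) ^ (D + 1) * F.eval ((a * x + b) / (c * x + e)) := by
    intro x hx
    have h1 := hmg_eval (a := a) (b := b) (F := u) hud.le hx
    have h2 := hmg_eval (a := a) (b := b) (F := w) hwd.le hx
    rw [hU] at h1
    rw [hW] at h2
    simp only [eval_mul, eval_add, eval_C] at h1 h2
    rw [hfe, hFe, eval_sub, eval_sub, eval_mul, eval_mul, eval_X, eval_X, hδe]
    have h3 : (c * x + e) ^ (D + 1) * (u.eval ((a * x + b) / (c * x + e)) -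
        (a * x + b) / (c * x + e) * w.eval ((a * x + b) / (c * x + e))) =
        (c * x + e) * ((c * x + e) ^ D * u.eval ((a * x + b) / (c * x + e))) -
          (a * x + b) * ((c * x + e) ^ D * w.eval ((a * x + b) / (c * x + e))) := by
      generalize u.eval ((a * x + b) / (c * x + e)) = α
      generalize w.eval ((a * x + b) / (c * x + e)) = β
      generalize c * x + e = y at hx
      rw [pow_succ]
      field_simp
    rw [h3, ← h1, ← h2]
    ring
  -- factorisation
  have hsplit : F = C F.leadingCoeff * (F.roots.map fun r => X - C r).prod :=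
    (IsAlgClosed.splits F).eq_prod_roots
  have hcard : F.roots.card = D := by
    rw [← hFd]
    exact (splits_iff_card_roots.1 (IsAlgClosed.splits F))
  obtain ⟨l, hl⟩ : ∃ l, l = F.leadingCoeff := ⟨_, rfl⟩
  have hl0 : l ≠ 0 := by rw [hl]; exact leadingCoeff_ne_zero.2 hF0
  rw [← hl] at hsplit
  have hfac : C (s * δ) * f = C l * ((C c * X + C e) *
      (F.roots.map fun r => C (a - r * c) * X + C (b - r * e)).prod) := by
    refine eq_of_eval hce fun x hx => ?_
    rw [eval_mul, eval_C, hid x hx]
    conv_lhs => rw [hsplit]
    rw [eval_mul, eval_C, eval_multiset_prod, Multiset.map_map, eval_mul, eval_C, eval_mul,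
      eval_multiset_prod, Multiset.map_map]
    simp only [eval_add, eval_mul, eval_C, eval_X, Function.comp_def, eval_sub]
    have h1 : (F.roots.map fun r => (a - r * c) * x + (b - r * e)) =
        F.roots.map fun r => (c * x + e) * ((a * x + b) / (c * x + e) - r) := by
      refine Multiset.map_congr rfl fun r _ => ?_
      field_simp
      ring
    rw [h1, Multiset.prod_map_mul, Multiset.map_const', Multiset.prod_replicate, hcard, pow_succ]
    ring
  -- the top coefficient
  have htop : s * δ * f.coeff (D + 1) = l * (c * (F.roots.map fun r => a - r * c).prod) := by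
    have h1 := congrArg (fun p : K[X] => p.coeff (D + 1)) hfac
    simp only [coeff_C_mul] at h1
    rw [h1]
    congr 1
    have h2 : ∀ p ∈ F.roots.map (fun r => C (a - r * c) * X + C (b - r * e)), p.natDegree ≤ 1 := by
      intro p hp
      obtain ⟨r, -, rfl⟩ := Multiset.mem_map.1 hp
      exact natDegree_linear_le
    have h3 := coeff_multiset_prod_of_natDegree_le (F.roots.map fun r => C (a - r * c) * X + C (b - r * e)) 1 h2
    rw [Multiset.card_map, hcard, mul_one, Multiset.map_map] at h3
    have h4 : (F.roots.map fun r => C (a - r * c) * X + C (b - r * e)).prod.natDegree ≤ D := by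
      refine (natDegree_multiset_prod_le _).trans ?_
      rw [Multiset.map_map]
      refine (Multiset.sum_le_card_nsmul _ 1 ?_).trans ?_
      · intro k hk
        obtain ⟨r, -, rfl⟩ := Multiset.mem_map.1 hk
        exact natDegree_linear_le
      · rw [Multiset.card_map, hcard, smul_eq_mul, mul_one]
    rw [show D + 1 = 1 + D by ring, coeff_mul_add_eq_of_natDegree_le natDegree_linear_le h4, h3]
    congr 1
    · simp
    · congr 1
      refine Multiset.map_congr rfl fun r _ => ?_
      simp
  have htop0 : l * (c * (F.roots.map fun r => a - r * c).prod) ≠ 0 := by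
    rw [← htop, ← hf]
    exact mul_ne_zero hsδ (leadingCoeff_ne_zero.2 hf0)
  have hc0 : c ≠ 0 := by
    rintro rfl
    apply htop0
    ring
  have har : ∀ r ∈ F.roots, a - r * c ≠ 0 := by
    intro r hr h0
    apply htop0
    rw [Multiset.prod_eq_zero (Multiset.mem_map.2 ⟨r, hr, h0⟩)]
    ring
  -- the roots
  have hne1 : (C c * X + C e : K[X]) ≠ 0 := by
    intro h0
    apply hc0
    have := congrArg (fun p : K[X] => p.coeff 1) h0
    simpa using this
  have hroots : f.roots = -(c⁻¹ * e) ::ₘ F.roots.map fun r => -((a - r * c)⁻¹ * (b - r * e)) := by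
    have h1 : (C (s * δ) * f).roots = f.roots := roots_C_mul _ hsδ
    rw [← h1, hfac, roots_C_mul _ hl0]
    have hz : (0 : K[X]) ∉ F.roots.map fun r => C (a - r * c) * X + C (b - r * e) := by
      intro h0
      obtain ⟨r, hr, h2⟩ := Multiset.mem_map.1 h0
      apply har r hr
      have := congrArg (fun p : K[X] => p.coeff 1) h2
      simpa using this
    have hpne : (F.roots.map fun r => C (a - r * c) * X + C (b - r * e)).prod ≠ 0 :=
      Multiset.prod_ne_zero hz
    rw [roots_mul (mul_ne_zero hne1 hpne), roots_C_mul_X_add_C _ hc0, roots_multiset_prod _ hz,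
      Multiset.bind_map, Multiset.singleton_add]
    congr 1
    rw [← Multiset.bind_singleton]
    refine Multiset.bind_congr fun r hr => ?_
    rw [roots_C_mul_X_add_C _ (har r hr)]
  rw [hroots, Multiset.map_cons, Multiset.map_map]
  have hRne : ∀ x, f.eval x = 0 → R.eval x ≠ 0 := by
    intro x hx hR
    obtain ⟨α, β, h1⟩ := hPR
    have h2 : P.eval x = 0 := by
      rw [hfe, eval_sub, eval_mul, hR, mul_zero, sub_zero] at hx
      exact hx
    have h3 := congrArg (Polynomial.eval x) h1
    rw [eval_add, eval_mul, eval_mul, h2, hR, mul_zero, mul_zero, add_zero, eval_one] at h3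
    exact zero_ne_one h3
  have hwne : ∀ x, F.eval x = 0 → w.eval x ≠ 0 := by
    intro x hx hR
    obtain ⟨α, β, h1⟩ := huw
    have h2 : u.eval x = 0 := by
      rw [hFe, eval_sub, eval_mul, hR, mul_zero, sub_zero] at hx
      exact hx
    have h3 := congrArg (Polynomial.eval x) h1
    rw [eval_add, eval_mul, eval_mul, h2, hR, mul_zero, mul_zero, add_zero, eval_one] at h3
    exact zero_ne_one h3
  congr 1
  · -- the point over infinity
    set x : K := -(c⁻¹ * e) with hxd
    have hB : c * x + e = 0 := by
      rw [hxd]
      field_simp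
      ring
    obtain ⟨A, hA⟩ : ∃ A, A = a * x + b := ⟨_, rfl⟩
    have hcA : c * A = -δ := by
      rw [hA, hδe]
      linear_combination a * hB
    have hA0 : A ≠ 0 := by
      rintro rfl
      apply hδ
      linear_combination hcA
    have hpoly : C (s * δ) * f = (C c * X + C e) * hmg a b c e D u -
        (C a * X + C b) * hmg a b c e D w := by
      rw [hU, hW, hfe, hδe]
      simp only [map_mul, map_sub]
      ring
    have hfx : f.eval x = 0 := by
      have h1 := congrArg (Polynomial.eval x) hfac
      simp only [eval_mul, eval_add, eval_C, eval_X, hB, zero_mul, mul_zero] at h1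
      exact (mul_eq_zero.1 h1).resolve_left hsδ
    have hPx : P.eval x = x * R.eval x := by
      have := hfx
      rw [hfe, eval_sub, eval_mul, eval_X] at this
      linear_combination this
    have hUx : A ^ D = s * (A * R.eval x) := by
      have h1 := hmg_zero (a := a) (b := b) (n := D) (F := u) hB
      rw [hU, ← hA] at h1
      have h2 : u.coeff D = 1 := by
        rw [← hud]
        exact hu
      rw [h2, one_mul] at h1
      rw [← h1]
      simp only [eval_mul, eval_add, eval_C]
      rw [hPx, hA]
      ring
    obtain ⟨k, rfl⟩ : ∃ k, D = k + 1 := ⟨D - 1, by omega⟩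
    have hR1 : s * R.eval x = A ^ k := by
      have : A * (s * R.eval x) = A * A ^ k := by
        rw [← pow_succ', hUx]
        ring
      exact mul_left_cancel₀ hA0 this
    have hWf : hmg a b c e (k + 1) w = (C c * X + C e) * hmg a b c e k w := by
      refine eq_of_eval hce fun y hy => ?_
      rw [eval_mul, hmg_eval hwd.le hy, hmg_eval (Nat.lt_succ_iff.1 hwd) hy]
      simp only [eval_add, eval_mul, eval_C, eval_X]
      rw [pow_succ]
      ring
    have hd : s * δ * (derivative f).eval x = c * A ^ (k + 1) - A * (c * (w.coeff k * A ^ k)) := by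
      have h1 := congrArg (fun p : K[X] => (derivative p).eval x) hpoly
      rw [hWf] at h1
      simp only [derivative_sub, derivative_mul, derivative_add, derivative_C, derivative_X,
        eval_sub, eval_add, eval_mul, eval_C, eval_X, zero_mul, mul_one, zero_add, add_zero, hB,
        hmg_zero hB, eval_zero, eval_one] at h1
      rw [h1, ← hA]
      have h2 : u.coeff (k + 1) = 1 := by
        rw [← hud]
        exact hu
      rw [h2]
      ring
    have e1 := mult_eq (P := P) (R := R) (x := x) (by rw [← hfe]; exact hfx) (hRne x hfx)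
    rw [e1, ← hfe, Nat.add_sub_cancel]
    have h9 : (derivative f).eval x = -(R.eval x * (1 - w.coeff k)) := by
      have h10 : s * δ * (derivative f).eval x = s * δ * -(R.eval x * (1 - w.coeff k)) := by
        rw [hd, pow_succ]
        linear_combination A ^ k * (1 - w.coeff k) * hcA - δ * (1 - w.coeff k) * (-hR1)
      exact mul_left_cancel₀ hsδ h10
    rw [h9]
    have := hRne x hfx
    field_simp
    ring
  · refine Multiset.map_congr rfl fun r hr => ?_
    have hFr : F.eval r = 0 := (mem_roots hF0).1 hr
    set x : K := -((a - r * c)⁻¹ * (b - r * e)) with hxd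
    have har' := har r hr
    have hx : (a - r * c) * x + (b - r * e) = 0 := by
      rw [hxd]
      field_simp
      ring
    have hB : c * x + e ≠ 0 := by
      intro h0
      apply hδ
      have : (a - r * c) * (c * x + e) = δ := by
        rw [hδe]
        linear_combination c * hx
      rw [← this, h0, mul_zero]
    have hφ : (a * x + b) / (c * x + e) = r := by
      rw [div_eq_iff hB]
      linear_combination hx
    have hfx : f.eval x = 0 := by
      have := hid x hB
      rw [hφ, hFr, mul_zero] at this
      exact (mul_eq_zero.1 this).resolve_left hsδ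
    have e1 := mult_eq (P := P) (R := R) (x := x) (by rw [← hfe]; exact hfx) (hRne x hfx)
    have e2 := mult_eq (P := u) (R := w) (x := r) (by rw [← hFe]; exact hFr) (hwne r hFr)
    show (derivative P * R - P * derivative R).eval x / R.eval x ^ 2 = _
    rw [e1, e2, ← hfe, ← hFe]
    congr 1
    -- derivatives
    obtain ⟨G, hG⟩ := dvd_iff_isRoot.2 hFr
    have hGd : G.natDegree ≤ D := by
      have hG0 : G ≠ 0 := by
        rintro rfl
        apply hF0
        rw [hG, mul_zero]
      have := natDegree_mul (X_sub_C_ne_zero r) hG0
      rw [← hG, hFd, natDegree_X_sub_C] at this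
      omega
    have hFG : (derivative F).eval r = G.eval r := by
      rw [hG]
      simp
    have hfG : C (s * δ) * f = (C a * X + C b - C r * (C c * X + C e)) * hmg a b c e D G := by
      refine eq_of_eval hce fun y hy => ?_
      rw [eval_mul, eval_C, hid y hy, eval_mul, hmg_eval hGd hy, hG, eval_mul]
      simp only [eval_sub, eval_add, eval_mul, eval_C, eval_X]
      generalize G.eval ((a * y + b) / (c * y + e)) = α
      generalize c * y + e = z at hy
      rw [pow_succ]
      field_simp
    have h5 := congrArg (fun p : K[X] => (derivative p).eval x) hfG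
    rw [deriv_fac hx, hmg_eval hGd hB, hφ, derivative_C_mul, eval_mul, eval_C, ← hFG] at h5
    have h6 := hmg_eval (a := a) (b := b) (F := w) hwd.le hB
    rw [hW, hφ] at h6
    simp only [eval_mul, eval_add, eval_C] at h6
    have hPx : P.eval x = x * R.eval x := by
      have := hfx
      rw [hfe, eval_sub, eval_mul, eval_X] at this
      linear_combination this
    rw [hPx] at h6
    have h7 : (a - r * c) * (c * x + e) = δ := by
      rw [hδe]
      linear_combination c * hx
    rw [div_eq_div_iff (hRne x hfx) (hwne r hFr)]
    have hBD : (c * x + e) ^ D ≠ 0 := pow_ne_zero _ hB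
    have key : s * δ * (c * x + e) * ((derivative f).eval x * w.eval r - (derivative F).eval r * R.eval x) = 0 := by
      linear_combination (c * x + e) * w.eval r * h5 +
        (c * x + e) ^ D * w.eval r * (derivative F).eval r * h7 - δ * (derivative F).eval r * h6
    have h8 := (mul_eq_zero.1 key).resolve_left (mul_ne_zero hsδ hB)
    linear_combination h8

end Pool.Agent.X35.TSP
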