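import Pool.Agent.X35.TSP.Core
import Pool.Agent.X328.TAU.Stm2

set_option autoImplicit false

namespace Pool.Agent.X35.TSP

universe u

theorem t : Pool.Agent.X328.TAU.S_SP.{u} := by
  intro K _ _ _ D hD P R u w hPR hmax hf huw hu hud hwd hFd hconj
  obtain ⟨a, b, c, e, hδ, s, hs, hU, hW⟩ := hconj
  exact spec_conj hD hPR hf huw hu hud hwd hFd hδ hs hU hW

end Pool.Agent.X35.TSP
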